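import Pool.Agent.PST.StmtsK3

/-!
# Squad PST, row OBR: it is enough that the forms vanish at `QW0 φ W`
-/

set_option autoImplicit false

open scoped BigOperators

noncomputable section

namespace Pool.Agent.PST.H91

open Pool.Agent.PFC (tw IsTv)
open Pool.Agent.PFD.D2 (Cdv FibG)
open Pool.Agent.PFD.D2b (FrR)
open Pool.Agent.PSS
open Pool.Agent.PSS.S0 (IsBQ)

section

variable {R V A : Type} [CommRing R] [CommGroup V] [Ring A] [Algebra R A]

theorem cwo_ap (α : V →* A) (u : V) (m : A) : cw R α u m = α u * m * α u⁻¹ := by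
  show α u * (m * α u⁻¹) = _
  rw [mul_assoc]

theorem al_io (α : V →* A) (v : V) : α v⁻¹ * α v = 1 := by
  rw [← map_mul, inv_mul_cancel, map_one]

theorem al_io' (α : V →* A) (v : V) : α v * α v⁻¹ = 1 := by
  rw [← map_mul, mul_inv_cancel, map_one]

/-- fixed by conjugation iff commuting -/
theorem fx_iff (α : V →* A) (u : V) (m : A) : cw R α u m = m ↔ m * α u = α u * m := by
  rw [cwo_ap]
  constructor
  · intro h
    calc m * α u = (α u * m * α u⁻¹) * α u := by rw [h]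
      _ = α u * m * (α u⁻¹ * α u) := by rw [mul_assoc]
      _ = α u * m := by rw [al_io, mul_one]
  · intro h
    rw [← h, mul_assoc, al_io', mul_one]

theorem fx_clo (α : V →* A) (u v : V) (m : A) (hu : cw R α u m = m) (hv : cw R α v m = m) :
    m ∈ FxR (cw R α) (Subgroup.closure {u, v}) := by
  let S : Subgroup V :=
    { carrier := {g | cw R α g m = m}
      mul_mem' := by
        intro a b ha hb
        show cw R α (a * b) m = m
        have ha' : cw R α a m = m := ha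
        have hb' : cw R α b m = m := hb
        rw [map_mul]
        show cw R α a (cw R α b m) = m
        rw [hb', ha']
      one_mem' := by
        show cw R α 1 m = m
        rw [map_one]
        rfl
      inv_mem' := by
        intro a ha
        show cw R α a⁻¹ m = m
        have ha' : cw R α a m = m := ha
        calc cw R α a⁻¹ m = cw R α a⁻¹ (cw R α a m) := by rw [ha']
          _ = (cw R α a⁻¹ * cw R α a) m := rfl
          _ = m := by
            rw [← map_mul, inv_mul_cancel, map_one]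
            rfl }
  have h3 : Subgroup.closure {u, v} ≤ S := by
    rw [Subgroup.closure_le]
    rintro g (rfl | rfl)
    · exact hu
    · exact hv
  exact fun g hg => h3 hg

/-- the right action is free -/
theorem free_of {E Ω : Type} [Group E] [MulAction (V × V) Ω] (φ : E →* MulAut V)
    (hst : ∀ ω : Ω, ∃ (e : E) (S : Subgroup V),
      MulAction.stabilizer (V × V) ω = tw (φ e).toMonoidHom S) (v : V) (ω : Ω)
    (h : ((1, v) : V × V) • ω = ω) : v = 1 := by
  obtain ⟨e, S, hS⟩ := hst ω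
  have h1 : ((1, v) : V × V) ∈ MulAction.stabilizer (V × V) ω := h
  rw [hS] at h1
  obtain ⟨s, -, hs⟩ := h1
  have h2 : φ e s = 1 := congrArg Prod.fst hs
  have h3 : s = v := congrArg Prod.snd hs
  rw [← h3]
  have h4 : φ e s = φ e 1 := by rw [h2, map_one]
  exact (φ e).injective h4

end

theorem obr (zij : ZijStmt) (oba : ObaStmt) (obw : ObwStmt) (lfx : LfxStmt)
    (rfd : S0.RfdStmt) (bqx : S0.BqxStmt) (bcl : S0.BclStmt) (bpu : S0.BpuStmt)
    (bbk : S0.BbkStmt) (fbk : S0.FbkStmt) : ObrStmt := by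
  classical
  intro ℓ _ R K F V E A A₀ B κ Ω _ _ _ _ _ _ _ _ _ _ _ _ _ _ _ _ _ _ _ _ φ W α lam x y b c C cv f
    α₀ lam₀ x₀ y₀ b₀ c₀ cc hK hz hQ hob ω u v hu hv
  have hℓF : (ℓ : F) = 0 := CharP.cast_eq_zero F ℓ
  have hℓK : (ℓ : K) ≠ 0 := Nat.cast_ne_zero.mpr (Fact.out : ℓ.Prime).ne_zero
  have hκℓ : cv.κ (ℓ : R) = 0 := by rw [map_natCast, hℓF]
  obtain ⟨ob1, ob2, -, ob4⟩ := oba R K V A B κ Ω W α lam x y b c C cc hz
  -- dual family of the frame
  obtain ⟨d, hcd, hSF⟩ := rfd R V A κ Ω α lam x y b c C.rf C.fr (free_of φ hK.st)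
  have hcK : ∀ s : B, C.cK ω s = C.lamK (C.i (d ω) * s) := by
    intro s
    have h1 : ∀ a : A, C.cK ω (C.i a) = C.lamK (C.i (d ω) * C.i a) := by
      intro a
      rw [C.ck, hcd, ← map_mul, C.lk]
    have h2 : ∑ t, C.cK t s • C.i (b t) = s := C.frK.2.2 s
    rw [← h2, Finset.mul_sum, map_sum, map_sum]
    refine Finset.sum_congr rfl fun t _ => ?_
    rw [map_smul, mul_smul_comm, map_smul, h1]
  have hdu : ∀ g : V, ((g, g) : V × V) • ω = ω → cw R α g (d ω) = d ω := by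
    intro g hg
    have h1 := hSF.ed (g, g) ω
    rw [hg] at h1
    rw [cwo_ap]
    exact h1.symm
  have hT : d ω ∈ FxR (cw R α) (Subgroup.closure {u, v}) :=
    fx_clo α u v (d ω) (hdu u hu) (hdu v hv)
  have huT : u ∈ Subgroup.closure {u, v} := Subgroup.subset_closure (Or.inl rfl)
  have hvT : v ∈ Subgroup.closure {u, v} := Subgroup.subset_closure (Or.inr rfl)
  show ∃ r : R, C.cK ω (kp C.i α cc u v) = algebraMap R K r
  rw [hcK]
  suffices hmain : ∀ z ∈ FxR (cw R α) (Subgroup.closure {u, v}),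
      InR R (C.lamK (C.i z * kp C.i α cc u v)) by
    obtain ⟨r, hr⟩ := hmain _ hT
    exact ⟨r, hr.symm⟩
  generalize hTT : Subgroup.closure {u, v} = T at *
  by_cases hTW : T ≤ W
  · intro z _
    have h1 := (ob2 v (hTW hvT) u 1).2.2.1
    rw [h1, mul_zero, map_zero]
    exact ⟨0, map_zero _⟩
  obtain ⟨t, htT, htW⟩ := Set.not_subset.mp hTW
  let E1 : Subgroup E :=
    { carrier := {e | ∀ q ∈ T, φ e q = q}
      one_mem' := by
        intro q _
        rw [map_one]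
        rfl
      mul_mem' := by
        intro a a' ha hb q hq
        rw [map_mul]
        show φ a (φ a' q) = q
        rw [hb q hq, ha q hq]
      inv_mem' := by
        intro a ha q hq
        rw [map_inv]
        show (φ a).symm q = q
        rw [MulEquiv.symm_apply_eq, ha q hq] }
  have hE1 : ∀ e, e ∈ E1 ↔ ∀ q ∈ T, φ e q = q := fun e => Iff.rfl
  have hEQ : ∀ e ∈ E1, ∀ q ∈ QW0 φ W, φ e q = q := by
    intro e he q hq
    refine hq e ?_
    refine hK.ch.fr e t htW ?_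
    rw [he t htT, mul_inv_cancel]
    exact W.one_mem
  obtain ⟨BT, _, _, αT, β, hBQ⟩ := bqx F V A₀ α₀ T
  have hClT := bcl ℓ F V E A₀ BT φ α₀ T αT β E1 hK.pg hK.cop hK.cl hBQ hE1
  obtain ⟨hPT, -, lamT, KT, _, xT, yT, hRT, hlT⟩ := bpu ℓ F V E A₀ BT κ φ α₀ T αT β lam₀ x₀ y₀ E1
    hℓF hK.pg hK.cl.per hK.cl.uni hK.rf0 hBQ hE1
  obtain ⟨w, hwc, hw⟩ := obw ℓ R K F V E A A₀ B κ Ω BT KT φ W α lam x y b c C cv f α₀ lam₀ x₀ y₀
    b₀ c₀ cc T αT β lamT xT yT hK hz hBQ hRT hlT u huT v hvT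
  have hcomm : ∀ (S : Subgroup V) (z : A), z ∈ FxR (cw R α) S → ∀ g ∈ S, z * α g = α g * z :=
    fun S z hzS g hg => (fx_iff α g z).1 (hzS g hg)
  have hρ : ∀ z ∈ FxR (cw R α) T, ∃ ρ : R,
      algebraMap R K ρ = (ℓ : K) * C.lamK (C.i z * kp C.i α cc u v) := by
    intro z hz'
    exact ob4 z ℓ u v (hcomm T z hz' u huT) (hcomm T z hz' v hvT) (hK.ch.pw u)
  -- `w` is in the Brauer kernel of `Q`
  have hwQ : w ∈ BKR (cw F αT) (QW0 φ W) := by
    obtain ⟨Ω', _, _, b', c', hF', hst'⟩ := hPT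
    obtain ⟨d', hcd', hSF'⟩ := rfd F V BT KT Ω' αT lamT xT yT b' c' hRT hF'
      (free_of (φ.comp E1.subtype) hst')
    let act : MulAction V Ω' :=
      MulAction.compHom Ω' (MonoidHom.prod (MonoidHom.id V) (MonoidHom.id V))
    have hFD : FrR (cw F αT) b' c' := by
      obtain ⟨f1, f2, f3⟩ := hF'
      exact ⟨fun g t => f1 (g, g) t, fun g t n => f2 (g, g) t n, f3⟩
    refine fbk F V BT Ω' (cw F αT) b' c' hFD (QW0 φ W) w ?_ ?_
    · intro g _
      rw [fx_iff]
      exact hwc _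
    · intro t' ht'
      rw [hcd']
      have hdt : d' t' ∈ FxR (cw F αT) (QW0 φ W) := by
        intro g hg
        have h1 := hSF'.ed (g, g) t'
        have h2 : ((g, g) : V × V) • t' = t' := ht' g hg
        rw [h2] at h1
        rw [cwo_ap]
        exact h1.symm
      obtain ⟨a₀, ha₀, hβa⟩ := (bbk ℓ F V E A₀ BT κ φ α₀ T αT β lam₀ x₀ y₀ (QW0 φ W) hℓF hK.pg
        hK.cl.per hK.rf0 hBQ).2 (d' t') hdt
      obtain ⟨z, hzz, hza⟩ := (lfx R F V A A₀ κ Ω cv f α₀ lam₀ x₀ y₀ b₀ c₀ α lam x y b c hK.fr0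
        hK.lv (QW0 φ W ⊔ T)).1 a₀ ha₀
      have hzT : z ∈ FxR (cw R α) T := fun g hg => hzz g ((le_sup_right : T ≤ QW0 φ W ⊔ T) hg)
      have hzQ : z ∈ FxR (cw R α) (QW0 φ W) :=
        fun g hg => hzz g ((le_sup_left : QW0 φ W ≤ QW0 φ W ⊔ T) hg)
      obtain ⟨ρ, hρe⟩ := hρ z hzT
      rw [← hβa, ← hza, hw z hzT ρ hρe]
      obtain ⟨u', hu', w₁, hw₁, rfl⟩ := hQ u
      obtain ⟨v', hv', w₂, hw₂, rfl⟩ := hQ v
      have h3 : kp C.i α cc (u' * w₁) (v' * w₂) = kp C.i α cc u' v' := by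
        rw [(ob2 w₁ hw₁ u' (v' * w₂)).1, (ob2 w₂ hw₂ u' v').2.1]
      obtain ⟨r, hr⟩ := hob u' hu' v' hv' z hzQ
      rw [h3, ← hr] at hρe
      have h4 : ρ = (ℓ : R) * r := by
        apply C.rinj
        rw [hρe, map_mul, map_natCast]
      rw [h4, map_mul, hκℓ, zero_mul]
  have hpE1 : ¬ ℓ ∣ Nat.card E1 := fun h => hK.cop (h.trans (Subgroup.card_subgroup_dvd_card E1))
  have hw0 : w = 0 := zij ℓ F V E1 BT (φ.comp E1.subtype) αT (QW0 φ W) hK.pg hpE1 hClT
    (fun g q hq => hEQ g.1 g.2 q hq) w hwc hwQ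
  intro z hzT
  obtain ⟨ρ, hρe⟩ := hρ z hzT
  have h1 := hw z hzT ρ hρe
  rw [hw0, mul_zero, map_zero] at h1
  obtain ⟨r, hr⟩ := (cv.ker ρ).1 h1.symm
  refine ⟨r, ?_⟩
  rw [hr, hK.pi, map_mul, map_natCast] at hρe
  exact mul_left_cancel₀ hℓK hρe

end Pool.Agent.PST.H91
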