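import Pool.Agent.PST.StmtsK2

/-!
# Squad PST, row REL: the relation in the extension ring
-/

set_option autoImplicit false

open scoped BigOperators

noncomputable section

namespace Pool.Agent.PST.H91

open Pool.Agent.PSS
open Finset

section

variable {A B X Y : Type} [Ring A] [Ring B] [Ring X] [Ring Y] {i : A →+* B} {n : A → A → A}
  {μ c d : B → B → B} {jX : B →+ X} {sX : A →+ X} {π : Y →+* X} {j : B →+ Y} {s : A →+ Y} {σ : Y}

theorem rel_pow (h : Eyx i n μ c d jX sX π j s σ) (hn : ∀ a a', i (n a a') = μ (i a) (i a'))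
    (r : A) (k : B) : ∀ t : ℕ, ∃ (N : A) (g g' : B),
      i N = ∑ q ∈ range t, μ (i r ^ q) (i r) * i r ^ (t - 1 - q) ∧
      (s r + j k) ^ t = s (r ^ t) + σ * s N + j g + σ * j g' := by
  intro t
  induction t with
  | zero =>
    refine ⟨0, 0, 0, by simp, ?_⟩
    rw [pow_zero, pow_zero, h.s1]
    simp
  | succ t ih =>
    obtain ⟨N, g, g', hN, hp⟩ := ih
    refine ⟨n (r ^ t) r + N * r, c (i (r ^ t)) (i r) + g * i r + i (r ^ t) * k,
      d (i (r ^ t)) (i r) + c (i N) (i r) + μ g (i r) + g' * i r + μ (i (r ^ t)) k + i N * k,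
      ?_, ?_⟩
    · rw [map_add, hn, map_mul, hN, Finset.sum_range_succ, map_pow, Finset.sum_mul]
      rw [add_comm]
      congr 1
      · refine Finset.sum_congr rfl fun q hq => ?_
        have hq' := Finset.mem_range.1 hq
        rw [mul_assoc, ← pow_succ]
        congr 2
        omega
      · simp
    · have e1 : ∀ a a', σ * (s a * s a') = σ * s (a * a') + σ * j (c (i a) (i a')) := by
        intro a a'
        rw [h.ss, mul_add, mul_add, mul_add, ← mul_assoc σ σ, ← mul_assoc σ σ, h.sq, zero_mul,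
          zero_mul, add_zero, add_zero]
      have e2 : ∀ a m, σ * (s a * j m) = σ * j (i a * m) := by
        intro a m
        rw [h.sj, mul_add, ← mul_assoc σ σ, h.sq, zero_mul, add_zero]
      have e3 : ∀ a m, σ * (j m * s a) = σ * j (m * i a) := by
        intro a m
        rw [h.js, mul_add, ← mul_assoc σ σ, h.sq, zero_mul, add_zero]
      rw [pow_succ, hp]
      have e4 : (s (r ^ t) + σ * s N + j g + σ * j g') * (s r + j k) =
          s (r ^ t) * s r + σ * (s N * s r) + j g * s r + σ * (j g' * s r) + s (r ^ t) * j k +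
          σ * (s N * j k) + j g * j k + σ * (j g' * j k) := by noncomm_ring
      rw [e4, e1, e2, e3, h.ss, h.sj, h.js, h.jj, h.jj, mul_zero, ← pow_succ]
      simp only [map_add, mul_add]
      abel

end

theorem rel (eyr : EyrStmt) : RelStmt := by
  intro A B X _ _ _ i μ c d p j s ℓ r w e k hi hμ hc hd nμ nc nd hμi hdl hdc hbr hX hw hwc hwk hrh
    he
  obtain ⟨n, Y, _, π, jY, sY, σ, hn, h⟩ := eyr A B X i μ c d p j s hi hμ hc hd nμ nc nd hμi hdl hdc
    hbr hX
  have hn0 : ∀ a, n w a = 0 := fun a => hi (by rw [hn, (hwc _).1, map_zero])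
  have hn0' : ∀ a, n a w = 0 := fun a => hi (by rw [hn, (hwc _).2.1, map_zero])
  have hwr : w * r = r * w := by
    rw [← hw, ← pow_succ, ← pow_succ']
  have h1 : (sY r + jY k) * sY w = sY w * (sY r + jY k) := by
    rw [add_mul, mul_add, h.ss, h.ss, h.js, h.sj, hn0, hn0', hwr, hwk, (hwc _).1, (hwc _).2.1,
      (hwc _).2.2.1, (hwc _).2.2.2.1, (hwc _).2.2.2.2.1, (hwc _).2.2.2.2.2]
  have hπ0 : π (sY r + jY k) = s r + j k := by rw [map_add, h.πs, h.πj]
  obtain ⟨N, g, g', hN, hp⟩ := rel_pow h hn r k ℓ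
  have hNe : N = e := hi (hN.trans he.symm)
  subst hNe
  have h2 : π ((sY r + jY k) ^ ℓ - sY w) = 0 := by
    rw [map_sub, map_pow, hπ0, hrh, h.πs, sub_self]
  obtain ⟨y1, hy1⟩ := h.ker _ h2
  have h3 : σ * ((sY r + jY k) * y1 - y1 * (sY r + jY k)) = 0 := by
    have h4 : (sY r + jY k) * ((sY r + jY k) ^ ℓ - sY w) =
        ((sY r + jY k) ^ ℓ - sY w) * (sY r + jY k) := by
      rw [mul_sub, sub_mul, h1, ← pow_succ, ← pow_succ']
    rw [hy1] at h4
    rw [mul_sub, ← mul_assoc, h.cen, mul_assoc, h4, mul_assoc, sub_self]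
  have h5 := h.inj _ h3
  rw [map_sub, map_mul, map_mul, hπ0, sub_eq_zero] at h5
  rw [hw] at hp
  have h6 : σ * y1 = σ * sY N + jY g + σ * jY g' := by
    rw [← hy1, hp]
    abel
  have h7 : j g = 0 := by
    have h8 := congrArg π h6
    rw [map_add, map_add, map_mul, map_mul, map_mul, h.πσ, h.πj, zero_mul, zero_mul, zero_mul,
      zero_add, add_zero] at h8
    exact h8.symm
  have h9 : jY g = 0 := h.j0 g ((hX.j0 g).1 h7)
  rw [h9, add_zero, ← mul_add] at h6
  have h10 : σ * (y1 - (sY N + jY g')) = 0 := by rw [mul_sub, h6, sub_self]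
  have h11 := h.inj _ h10
  rw [map_sub, map_add, h.πs, h.πj, sub_eq_zero] at h11
  exact ⟨g', by rw [← h11, h5]⟩

end Pool.Agent.PST.H91
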