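import Pool.Agent.PST.StmtsGV
import Pool.Agent.Helper69_PSS.CYP

/-!
# Squad PST, row K4R: from the class `K4 L` to the property `Rt4`
-/

set_option autoImplicit false

noncomputable section

namespace Pool.Agent.PST.GU.H91

open Pool.Agent.PSS Pool.Agent.PSS.H69 Pool.Agent.PST Pool.Agent.PST.GU

theorem sr_le {ℓ : ℕ} {V : Type} [Group V] {E : Subgroup (MulAut V)} {U W P : Subgroup V}
    (hW : ∀ a ∈ E, ∀ v ∈ W, a v ∈ W) (h : Sr ℓ E U W P) :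
    W ≤ P ∧ ∀ a ∈ E, ∀ v ∈ P, a v ∈ P := by
  unfold Sr at h
  induction h with
  | refl => exact ⟨le_rfl, hW⟩
  | tail _ hs ih => exact ⟨ih.1.trans hs.le, hs.st⟩

theorem k4r (rgv : RgvStmt) (ecg : EcgStmt) (knh : KnhStmt) : K4rStmt := by
  intro L ℓ V _ _ E W hℓ hpg hcop hK
  obtain ⟨P, U, h⟩ := hK
  obtain ⟨hWP, hPst⟩ := sr_le h.w1.st h.wp
  have hcard : Nat.card W = ℓ := by
    rw [← Subgroup.relIndex_bot_left]
    exact h.w1.ix
  have hTst : ∀ a ∈ E, ∀ v ∈ W ⊔ U, a v ∈ W ⊔ U := by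
    intro a ha v hv
    obtain ⟨w, hw, u, hu, rfl⟩ := Subgroup.mem_sup.mp hv
    rw [map_mul]
    exact Subgroup.mul_mem_sup (h.w1.st a ha w hw) (h.su a ha u hu)
  have ham : ∀ a ∈ E, ∀ b ∈ E, ∀ v : V, a (b v) * (b (a v))⁻¹ ∈ W ⊔ U := by
    intro a ha b hb v
    have hv : v ∈ P ⊔ U := by
      rw [h.jn]
      exact Subgroup.mem_top v
    obtain ⟨p, hp, u, hu, rfl⟩ := Subgroup.mem_sup.mp hv
    have h1 : a (b (p * u)) * (b (a (p * u)))⁻¹ = a (b u) * (b (a u))⁻¹ := by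
      rw [map_mul, map_mul, map_mul, map_mul, h.cm a ha b hb p hp, mul_inv]
      rw [mul_comm (b (a p)) (a (b u)), mul_assoc, mul_inv_cancel_left]
    rw [h1]
    exact (le_sup_right : U ≤ W ⊔ U) (U.mul_mem (h.su a ha _ (h.su b hb u hu))
      (U.inv_mem (h.su b hb _ (h.su a ha u hu))))
  have hreg : ∀ P' : Subgroup V, W ⊔ U ≤ P' → (∀ a ∈ E, ∀ v ∈ P', a v ∈ P') →
      ∃ u ∈ P', ∀ a ∈ E, a u = u → ∀ w ∈ P', a w = w := by
    intro P' hTP' hP'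
    exact rgv ℓ V E P W U P' hℓ hpg hcop h.cm h.w1 hPst hWP h.su h.nt h.pu h.jn hTP' hP'
  have hch : ChB ℓ E ⊤ (W ⊔ U) := ecg ℓ V E (W ⊔ U) hℓ hpg hTst ham hreg
  obtain ⟨n, hn⟩ := knh ℓ V E (W ⊔ U) hch
  have hst : ∀ e : E, ∀ v ∈ W ⊔ U, E.subtype e v ∈ W ⊔ U := fun e v hv => hTst e e.2 v hv
  have hWT : W ≤ W ⊔ U := le_sup_left
  have hUT : U ≤ W ⊔ U := le_sup_right
  refine ⟨n, W ⊔ U, rsh E.subtype (W ⊔ U) hst, hWT, fun e w hw => h.w1.st e e.2 w hw, ?_,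
    fun e w => rfl, ?_, U.subgroupOf (W ⊔ U), ⟨?_, ?_⟩, ?_, ?_, ?_, ?_⟩
  · rw [hcard]
    exact hn
  · rw [Nat.card_congr (Subgroup.subgroupOfEquivOfLe hWT).toEquiv, hcard]
    exact hℓ
  · rw [disjoint_iff, eq_bot_iff]
    intro v hv
    obtain ⟨hv1, hv2⟩ := Subgroup.mem_inf.mp hv
    rw [Subgroup.mem_subgroupOf] at hv1 hv2
    have h3 : (v : V) ∈ P ⊓ U := Subgroup.mem_inf.mpr ⟨hWP hv1, hv2⟩
    rw [h.pu, Subgroup.mem_bot] at h3
    rw [Subgroup.mem_bot]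
    exact Subtype.ext h3
  · rw [codisjoint_iff, eq_top_iff]
    intro v _
    obtain ⟨w, hw, u, hu, hwu⟩ := Subgroup.mem_sup.mp v.2
    have h5 : v = (⟨w, hWT hw⟩ : (W ⊔ U : Subgroup V)) * ⟨u, hUT hu⟩ := Subtype.ext hwu.symm
    rw [h5]
    exact Subgroup.mul_mem_sup (Subgroup.mem_subgroupOf.mpr hw) (Subgroup.mem_subgroupOf.mpr hu)
  · intro hb
    apply h.nt
    have h2 := Subgroup.subgroupOf_map_subtype U (W ⊔ U)
    rw [hb, Subgroup.map_bot, inf_eq_left.mpr hUT] at h2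
    exact h2.symm
  · intro e w hw
    rw [Subgroup.mem_subgroupOf] at hw ⊢
    exact h.w1.st e e.2 _ hw
  · intro e u hu
    rw [Subgroup.mem_subgroupOf] at hu ⊢
    exact h.su e e.2 _ hu
  · intro e hew u hu hu1 heu
    rw [Subgroup.mem_subgroupOf] at hu
    have hfW : ∀ w ∈ W, (e : MulAut V) w = w := by
      intro w hw
      have h6 := hew ⟨w, hWT hw⟩ (Subgroup.mem_subgroupOf.mpr hw)
      exact Subtype.ext_iff.mp h6
    have hfU : ∀ x ∈ U, (e : MulAut V) x = x := by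
      refine h.w1.fr e e.2 ?_ u hu ?_ ?_
      · intro v hv
        rw [hfW v hv, mul_inv_cancel]
        exact Subgroup.mem_bot.mpr rfl
      · intro h0
        exact hu1 (Subtype.ext h0)
      · exact Subtype.ext_iff.mp heu
    apply MulEquiv.ext
    intro v
    apply Subtype.ext
    change (e : MulAut V) (v : V) = v
    obtain ⟨w, hw, u', hu', hwu⟩ := Subgroup.mem_sup.mp v.2
    rw [← hwu, map_mul, hfW w hw, hfU u' hu']

end Pool.Agent.PST.GU.H91
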