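import Pool.Agent.PST.StmtsGS
import Pool.Agent.Helper69_PSS.CYP

/-!
# Squad PST, row KNG: from `ChB`, `Frw` to `Chn`, `Fre` (edit of `Helper10_PST/KNF.lean`)
-/

set_option autoImplicit false

noncomputable section

namespace Pool.Agent.PST.H91

open Pool.Agent.PSS Pool.Agent.PSS.H69

theorem chb_le {ℓ : ℕ} {V : Type} [Group V] {E : Subgroup (MulAut V)} {P W : Subgroup V}
    (h : ChB ℓ E P W) : W ≤ P := by
  induction h with
  | refl P => exact le_rfl
  | step P P' W hs _ ih => exact ih.trans hs.le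

/-- The claim. -/
theorem claimB {ℓ : ℕ} {V : Type} [CommGroup V] {E : Subgroup (MulAut V)} {P W : Subgroup V}
    (hC : ChB ℓ E P W) : ∀ (V₁ E₁ : Type) [CommGroup V₁] [Group E₁] (φ : E₁ →* MulAut V₁)
    (i : V₁ →* V), Function.Injective i → (∀ x, ∃ a ∈ E, ∀ v, i (φ x v) = a (i v)) →
    i.range = P → ∃ n, Chn ℓ n V₁ E₁ φ (W.comap i) := by
  induction hC with
  | refl P =>
    intro V₁ E₁ _ _ φ i hi _ hr
    refine ⟨0, ?_⟩
    change P.comap i = ⊤
    rw [eq_top_iff]
    intro v _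
    rw [Subgroup.mem_comap, ← hr]
    exact ⟨v, rfl⟩
  | step P P' W hs hch ih =>
    intro V₁ E₁ _ _ φ i hi hφ hr
    have hsw : ∀ e : E₁, ∀ u ∈ P'.comap i, φ e u ∈ P'.comap i := by
      intro e u hu
      rw [Subgroup.mem_comap] at hu ⊢
      obtain ⟨a, ha, hae⟩ := hφ e
      rw [hae]
      exact hs.st a ha _ hu
    have hmap : (P'.comap i).map i = P' := by
      rw [Subgroup.map_comap_eq, hr]
      exact inf_eq_right.mpr hs.le
    have hiP : ∀ u : V₁, i u ∈ P := by
      intro u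
      rw [← hr]
      exact ⟨u, rfl⟩
    obtain ⟨n, hn⟩ := ih (P'.comap i) E₁ (rsh φ (P'.comap i) hsw) (i.comp (P'.comap i).subtype)
      (hi.comp (P'.comap i).subtype_injective)
      (by
        intro x
        obtain ⟨a, ha, hae⟩ := hφ x
        exact ⟨a, ha, fun v => hae v⟩)
      (by rw [MonoidHom.range_comp, Subgroup.range_subtype, hmap])
    refine ⟨n + 1, P'.comap i, rsh φ (P'.comap i) hsw, Or.inr ?_, ?_, fun e w => rfl, hn⟩
    · refine ⟨hsw, ?_, ?_, ?_, ?_⟩
      · intro v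
        rw [Subgroup.mem_comap, map_pow]
        exact hs.pw _ (hiP v)
      · intro e v hv h u
        obtain ⟨a, ha, hae⟩ := hφ e
        rw [Subgroup.mem_comap, map_mul, map_inv, hae] at h ⊢
        exact hs.fr a ha (i v) (hiP v) (fun h' => hv h') h (i u) (hiP u)
      · intro e f v
        obtain ⟨a, ha, hae⟩ := hφ e
        obtain ⟨b, hb, hbf⟩ := hφ f
        rw [Subgroup.mem_comap, map_mul, map_inv, hae, hbf, hbf, hae]
        exact hs.am a ha b hb (i v) (hiP v)
      · obtain ⟨u, hu, hfix⟩ := hs.rg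
        have hur : u ∈ i.range := by
          rw [hr]
          exact hs.le hu
        obtain ⟨w₀, rfl⟩ := hur
        refine ⟨w₀, hu, ?_⟩
        intro e he w hw
        obtain ⟨a, ha, hae⟩ := hφ e
        apply hi
        rw [hae]
        refine hfix a ha ?_ (i w) hw
        rw [← hae, he]
    · intro w hw
      rw [Subgroup.mem_comap] at hw ⊢
      exact chb_le hch hw

theorem kng : KngStmt := by
  intro ℓ V _ _ E W U X hch h
  have hst : ∀ e : E, ∀ w ∈ W, E.subtype e w ∈ W := by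
    intro e w hw
    rw [← h.uw] at hw ⊢
    obtain ⟨u, hu, x, hx, rfl⟩ := Subgroup.mem_sup.mp hw
    rw [map_mul]
    exact Subgroup.mul_mem_sup (h.su e e.2 u hu) (h.sx e e.2 x hx)
  obtain ⟨n, hn⟩ := claimB hch V E E.subtype (MonoidHom.id V) (fun _ _ h => h)
    (fun x => ⟨x, x.2, fun v => rfl⟩)
    (by rw [MonoidHom.range_eq_map, Subgroup.map_id])
  have hUW : U ≤ W := by
    rw [← h.uw]
    exact le_sup_left
  have hXW : X ≤ W := by
    rw [← h.uw]
    exact le_sup_right
  refine ⟨n, rsh E.subtype W hst, hn, fun e w => rfl, U.subgroupOf W, X.subgroupOf W, ?_, ?_,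
    ?_, ?_, ?_⟩
  · intro hb
    apply h.nt
    have h2 := Subgroup.subgroupOf_map_subtype U W
    rw [hb, Subgroup.map_bot, inf_eq_left.mpr hUW] at h2
    exact h2.symm
  · constructor
    · rw [disjoint_iff, eq_bot_iff]
      intro v hv
      obtain ⟨hv1, hv2⟩ := Subgroup.mem_inf.mp hv
      rw [Subgroup.mem_subgroupOf] at hv1 hv2
      have h3 : (v : V) ∈ U ⊓ X := Subgroup.mem_inf.mpr ⟨hv1, hv2⟩
      rw [h.ux, Subgroup.mem_bot] at h3
      rw [Subgroup.mem_bot]
      exact Subtype.ext h3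
    · rw [codisjoint_iff, eq_top_iff]
      intro v _
      have hv : (v : V) ∈ U ⊔ X := by
        rw [h.uw]
        exact v.2
      obtain ⟨u, hu, x, hx, hux⟩ := Subgroup.mem_sup.mp hv
      have h5 : v = (⟨u, hUW hu⟩ : W) * ⟨x, hXW hx⟩ := Subtype.ext hux.symm
      rw [h5]
      exact Subgroup.mul_mem_sup (Subgroup.mem_subgroupOf.mpr hu)
        (Subgroup.mem_subgroupOf.mpr hx)
  · intro e u hu
    rw [Subgroup.mem_subgroupOf] at hu ⊢
    exact h.su e e.2 _ hu
  · intro e u hu
    rw [Subgroup.mem_subgroupOf] at hu ⊢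
    exact h.sx e e.2 _ hu
  · intro e u hu hu1 heu
    rw [Subgroup.mem_subgroupOf] at hu
    apply MulEquiv.ext
    intro w
    apply Subtype.ext
    change (e : MulAut V) (w : V) = w
    refine h.fr e e.2 u hu ?_ ?_ w w.2
    · intro h0
      exact hu1 (Subtype.ext h0)
    · exact Subtype.ext_iff.mp heu

end Pool.Agent.PST.H91
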