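import Pool.Agent.PST.StmtsGV
import Pool.Agent.Helper91_PST.KNG

/-!
# Squad PST, row KNH: from `ChB` to `Chn`
-/

set_option autoImplicit false

noncomputable section

namespace Pool.Agent.PST.GU.H91

open Pool.Agent.PSS Pool.Agent.PST Pool.Agent.PST.GU

theorem knh : KnhStmt := by
  intro ℓ V _ _ E T hch
  obtain ⟨n, hn⟩ := Pool.Agent.PST.H91.claimB hch V E E.subtype (MonoidHom.id V) (fun _ _ h => h)
    (fun x => ⟨x, x.2, fun v => rfl⟩)
    (by rw [MonoidHom.range_eq_map, Subgroup.map_id])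
  exact ⟨n, hn⟩

end Pool.Agent.PST.GU.H91
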