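import Pool.Agent.PST.StmtsET1

/-!
# Squad PST, block ET, row UNS: units of `S`
-/

set_option autoImplicit false

open scoped BigOperators

noncomputable section

namespace Pool.Agent.PST.ET.H91

open Pool.Agent.PFD.D2 (Cdv FibG)

theorem sig_pow {R F V S : Type} [CommRing R] [Field F] [CommGroup V] [Fintype V] [DecidableEq V]
    [CommRing S] [Algebra R S] {c : Cdv R F} {σ : V → S} {cf : V → (S →ₗ[R] R)}
    (h : SVd c σ cf) (v : V) : ∀ n : ℕ, ∃ d, σ v ^ n = σ (v ^ n) + c.π • d := by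
  intro n
  induction n with
  | zero =>
    refine ⟨0, ?_⟩
    rw [pow_zero, pow_zero, h.one, smul_zero, add_zero]
  | succ n ih =>
    obtain ⟨d, hd⟩ := ih
    obtain ⟨d', hd'⟩ := h.mul (v ^ n) v
    refine ⟨d' + d * σ v, ?_⟩
    rw [pow_succ, hd, add_mul, hd', smul_mul_assoc, smul_add, ← pow_succ, add_assoc]

theorem uns (upr : UprStmt) : UnsStmt := by
  intro ℓ hℓ R F V S _ _ _ _ _ _ _ _ c σ cf hv h s hs
  rcases subsingleton_or_nontrivial S with hS | hS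
  · exact isUnit_of_subsingleton s
  have hSℓ : (ℓ : S) = 0 := by
    have h1 : ((ℓ : R) : R) = 0 := CharP.cast_eq_zero R ℓ
    have h2 : algebraMap R S (ℓ : R) = (ℓ : S) := map_natCast _ _
    rw [← h2, h1, map_zero]
  have hcS : CharP S ℓ := (CharP.charP_iff_prime_eq_zero hℓ.out).2 hSℓ
  have hfin : Module.Finite R S := by
    classical
    refine ⟨⟨Finset.univ.image σ, ?_⟩⟩
    rw [eq_top_iff]
    intro x _
    rw [← h.b1 x]
    refine Submodule.sum_mem _ fun v _ => Submodule.smul_mem _ _ (Submodule.subset_span ?_)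
    rw [Finset.coe_image]
    exact ⟨v, Finset.mem_coe.2 (Finset.mem_univ v), rfl⟩
  have hpow : ∀ v, ∃ d, σ v ^ ℓ = 1 + c.π • d := by
    intro v
    obtain ⟨d, hd⟩ := sig_pow h v ℓ
    refine ⟨d, ?_⟩
    rw [hd, hv, h.one]
  choose g hg using hpow
  have h1 : s ^ ℓ = (∑ v, cf v s) ^ ℓ • (1 : S) + c.π • ∑ v, cf v s ^ ℓ • g v := by
    have h2 : s ^ ℓ = (∑ v, cf v s • σ v) ^ ℓ := by rw [h.b1]
    rw [h2, sum_pow_char ℓ, sum_pow_char ℓ, Finset.sum_smul, Finset.smul_sum,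
      ← Finset.sum_add_distrib]
    refine Finset.sum_congr rfl fun v _ => ?_
    rw [smul_pow, hg, smul_add, smul_comm]
  have h3 : c.κ ((∑ v, cf v s) ^ ℓ) ≠ 0 := by
    rw [map_pow, map_sum]
    exact pow_ne_zero _ hs
  obtain ⟨ρ, hρ⟩ := c.loc _ h3
  have h4 : s * (((ρ⁻¹ : Rˣ) : R) • s ^ (ℓ - 1)) =
      1 + c.π • (((ρ⁻¹ : Rˣ) : R) • ∑ v, cf v s ^ ℓ • g v) := by
    have h5 : s * s ^ (ℓ - 1) = s ^ ℓ := by
      rw [← pow_succ', Nat.sub_add_cancel hℓ.out.one_le]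
    rw [mul_smul_comm, h5, h1, smul_add, smul_smul, ← hρ, Units.inv_mul, one_smul, smul_comm]
  exact upr R F S c s _ _ _ h4 (by rw [mul_comm, h4])

end Pool.Agent.PST.ET.H91
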